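import Mathlib

set_option autoImplicit false

/-!
# MP_e2b281_nt: ranks of congruent number curves in the thin family. Definitions.

The curve is `E : y² = x³ - 4 m² x`, `m` squarefree, `m = 1` modulo 8, all primes of `m` being
`1` or `7` modulo 8.
-/

namespace Pool.Agent.TRK

/-- `q` is 7 or 9 modulo 16 -/
def L16 (q : ℕ) : Prop := q % 16 = 7 ∨ q % 16 = 9

instance : DecidablePred L16 := fun _ => inferInstanceAs (Decidable (_ ∨ _))

/-- The thin family: squarefree, 1 modulo 8, all primes 1 or 7 modulo 8. -/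
structure FamN (m : ℕ) : Prop where
  one : 1 < m
  m8 : m % 8 = 1
  sq : Squarefree m
  pr : ∀ q : ℕ, q.Prime → q ∣ m → q % 8 = 1 ∨ q % 8 = 7

/-- The consequences of the nonvanishing of the determinant which are used for the rank. -/
structure Crit (m : ℕ) : Prop where
  A : ∀ N N' : ℕ, N * N' = m → (∀ q : ℕ, q.Prime → q ∣ N' → jacobiSym N q = 1) →
    (∀ q : ℕ, q.Prime → q ∣ N → jacobiSym N' q = 1) → N = 1 ∨ N' = 1
  T1 : ∀ N N' : ℕ, N * N' = m → N % 16 = 1 → (∀ q : ℕ, q.Prime → q ∣ N' → jacobiSym N q = 1) →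
    (∀ q : ℕ, q.Prime → q ∣ N → jacobiSym (-N') q = 1) → N = 1
  T15 : ∀ N N' : ℕ, N * N' = m → N % 16 = 15 →
    (∀ q : ℕ, q.Prime → q ∣ N' → jacobiSym (-N) q = 1) →
    (∀ q : ℕ, q.Prime → q ∣ N → jacobiSym N' q = 1) → False
  L : ∀ N N' : ℕ, N * N' = m →
    (∀ q : ℕ, q.Prime → q ∣ N' → (jacobiSym N q = -1 ↔ L16 q)) →
    (∀ q : ℕ, q.Prime → q ∣ N → (jacobiSym N' q = -1 ↔ L16 q)) → False

/-! ### The matrices -/

/-- Distinct primes, 1 or 7 modulo 8, with product 1 modulo 8. -/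
structure FamP {k : ℕ} (p : Fin (k + 1) → ℕ) : Prop where
  pr : ∀ i, (p i).Prime
  inj : Function.Injective p
  h8 : ∀ i, p i % 8 = 1 ∨ p i % 8 = 7
  hm : (∏ i, p i) % 8 = 1

/-- The matrix over the field with two elements whose entry at `(i, j)`, `i ≠ j`, is `1` when
`p j` is a nonresidue modulo `p i` and `0` otherwise, and whose rows sum to zero. -/
def redei {k : ℕ} (p : Fin (k + 1) → ℕ) : Matrix (Fin (k + 1)) (Fin (k + 1)) (ZMod 2) :=
  Matrix.of fun i j =>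
    if i = j then ∑ l ∈ Finset.univ.erase i, (if jacobiSym (p l) (p i) = -1 then 1 else 0)
    else if jacobiSym (p j) (p i) = -1 then 1 else 0

/-- The vector with entry `1` at `i` when `p i` is 7 or 9 modulo 16. -/
def lamv {k : ℕ} (p : Fin (k + 1) → ℕ) : Fin (k + 1) → ZMod 2 :=
  fun i => if p i % 16 = 7 ∨ p i % 16 = 9 then 1 else 0

/-- `sy q x = 1` iff `(x / q) = -1` -/
def sy (q : ℕ) (x : ℤ) : ZMod 2 := if jacobiSym x q = -1 then 1 else 0

/-- class bit: 7 modulo 8 -/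
def nn (q : ℕ) : ZMod 2 := if q % 8 = 7 then 1 else 0

/-- class bit: 7 or 9 modulo 16 -/
def lm (q : ℕ) : ZMod 2 := if L16 q then 1 else 0

/-- indicator vector of the primes dividing `N` -/
def vec {k : ℕ} (p : Fin (k + 1) → ℕ) (N : ℕ) : Fin (k + 1) → ZMod 2 :=
  fun i => if p i ∣ N then 1 else 0

/-! ### Selmer groups -/

/-- Redei condition at `q`. -/
def condA (m D q : ℕ) : Prop :=
  (¬ q ∣ D → jacobiSym D q = 1) ∧ (q ∣ D → jacobiSym ((m / D : ℕ) : ℤ) q = 1)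

/-- Odd positive part of the Selmer group of `E`. -/
def S1 (m : ℕ) : Set ℕ :=
  {D | D ∣ m ∧ ∀ q : ℕ, q.Prime → q ∣ m → q % 8 = 1 → condA m D q}

/-- Selmer group of the isogenous curve. -/
def S2 (m : ℕ) : Set ℕ :=
  {D | D ∣ m ∧ (∀ q : ℕ, q.Prime → q ∣ D → q % 8 = 1) ∧
    ∀ q : ℕ, q.Prime → q ∣ m → condA m D q}

end Pool.Agent.TRK
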