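import Pool.Agent.TRK.SV7
import Pool.Agent.TLW.HT

set_option autoImplicit false

/-! MP_e2b281_nt: few members of the family have few prime factors 7 modulo 8 -/

namespace Pool.Agent.TRK

open Finset Filter Topology Pool.Agent.TLW

/-- number of prime factors 7 modulo 8 -/
def sev (m : ℕ) : ℕ := (m.primeFactors.filter (fun q => q % 8 = 7)).card

/-- the weight -/
noncomputable def hf (m : ℕ) : ℝ := (1 / 2 : ℝ) ^ sev m

theorem hf_nonneg (m : ℕ) : 0 ≤ hf m := by unfold hf; positivity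

theorem hf_mul {b p : ℕ} (h : F1 (b * p)) : hf (b * p) ≤ 1 * hf b := by
  rw [one_mul]
  unfold hf
  apply pow_le_pow_of_le_one (by norm_num) (by norm_num)
  unfold sev
  apply Finset.card_le_card
  apply Finset.filter_subset_filter
  exact Nat.primeFactors_mono (Dvd.intro p rfl) h.1.ne_zero

/-- the factor at `p` -/
noncomputable def gf (p : ℕ) : ℝ := (if p % 8 = 7 then (1 / 2 : ℝ) else 1) * (1 / (p : ℝ))

theorem gf_nonneg (p : ℕ) : 0 ≤ gf p := by
  unfold gf
  split_ifs <;> positivity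

theorem sum_hf_eq (x : ℕ) : ∑ a ∈ (PP x).divisors, hf a / (a : ℝ) = ∏ p ∈ pr 0 x, (1 + gf p) := by
  rw [sum_PP x (fun a => hf a / (a : ℝ)), Finset.prod_one_add]
  apply Finset.sum_congr rfl
  intro s hs
  rw [Finset.mem_powerset] at hs
  unfold hf sev
  rw [primeFactors_prod_sub hs, div_eq_mul_one_div, inv_prod]
  have h1 : (1 / 2 : ℝ) ^ (s.filter (fun q => q % 8 = 7)).card =
      ∏ p ∈ s, (if p % 8 = 7 then (1 / 2 : ℝ) else 1) := by
    rw [Finset.prod_ite, Finset.prod_const, Finset.prod_const_one, mul_one]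
  rw [h1, ← Finset.prod_mul_distrib]
  rfl

theorem one_add_gf {p : ℕ} (hp : 1 ≤ p) :
    1 + gf p ≤ (1 + 1 / (p : ℝ)) * Real.exp (if p % 8 = 7 then -(1 / 4) * (1 / (p : ℝ)) else 0) := by
  unfold gf
  have hp1 : (1 : ℝ) ≤ p := by exact_mod_cast hp
  set t : ℝ := 1 / (p : ℝ) with ht
  have ht0 : 0 < t := by positivity
  have ht1 : t ≤ 1 := by
    rw [ht, div_le_one (by linarith)]
    exact hp1
  split_ifs with h
  · have h1 : 1 - (1 / 4) * t ≤ Real.exp (-(1 / 4) * t) := by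
      have := Real.add_one_le_exp (-(1 / 4) * t)
      linarith
    calc 1 + 1 / 2 * t ≤ (1 + t) * (1 - (1 / 4) * t) := by nlinarith
      _ ≤ _ := mul_le_mul_of_nonneg_left h1 (by linarith)
  · rw [Real.exp_zero, mul_one, one_mul]

theorem sum_hf_le (x : ℕ) : ∑ a ∈ FF x, hf a / (a : ℝ) ≤ DD x * Real.exp (-(1 / 4) * V7 x) := by
  have h1 : ∑ a ∈ FF x, hf a / (a : ℝ) ≤ ∑ a ∈ (PP x).divisors, hf a / (a : ℝ) := by
    apply Finset.sum_le_sum_of_subset_of_nonneg (FF_subset x)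
    intro a _ _
    have := hf_nonneg a
    positivity
  rw [sum_hf_eq] at h1
  refine h1.trans ?_
  have h2 : ∏ p ∈ pr 0 x, (1 + gf p) ≤ ∏ p ∈ pr 0 x, ((1 + 1 / (p : ℝ)) *
      Real.exp (if p % 8 = 7 then -(1 / 4) * (1 / (p : ℝ)) else 0)) := by
    apply Finset.prod_le_prod
    · intro p _
      have := gf_nonneg p
      linarith
    · intro p hp
      exact one_add_gf (pr_prime hp).one_lt.le
  refine h2.trans (le_of_eq ?_)
  rw [Finset.prod_mul_distrib, ← Real.exp_sum]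
  unfold DD V7 p7
  rw [Finset.sum_filter, Finset.mul_sum]
  congr 2
  apply Finset.sum_congr rfl
  intro p _
  split_ifs <;> ring

/-- Almost all members of the family have many prime factors 7 modulo 8. -/
theorem few_seven (ε : ℝ) (hε : 0 < ε) (K : ℕ) : ∃ X0 : ℕ, ∀ X : ℕ, X0 ≤ X →
    (((FF X).filter (fun m => sev m < K)).card : ℝ) ≤ ε * ((X : ℝ) / Real.log X) * DD X := by
  obtain ⟨C, hC, h⟩ := ht 1 (by norm_num)
  have hlim : Tendsto (fun X : ℕ => (2 ^ K * C) * Real.exp (-(1 / 4) * V7 X)) atTop (𝓝 0) := by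
    have h1 : Tendsto (fun X : ℕ => -(1 / 4) * V7 X) atTop atBot :=
      V7_tendsto.const_mul_atTop_of_neg (by norm_num)
    have h2 := (Real.tendsto_exp_atBot.comp h1).const_mul (2 ^ K * C)
    rw [mul_zero] at h2
    exact h2
  obtain ⟨X0, hX0⟩ := ((hlim.eventually (gt_mem_nhds hε)).and (eventually_ge_atTop 2)).exists_forall_of_atTop
  refine ⟨X0, fun X hX => ?_⟩
  obtain ⟨h1, h2⟩ := hX0 X hX
  have h3 := h hf hf_nonneg (fun b p hbp _ => hf_mul hbp) X h2
  have hX1 : (1 : ℝ) < X := by exact_mod_cast (by omega : 1 < X)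
  have hl : 0 < Real.log X := Real.log_pos hX1
  have h4 : (((FF X).filter (fun m => sev m < K)).card : ℝ) ≤ 2 ^ K * ∑ m ∈ FF X, hf m := by
    rw [Finset.card_filter]
    push_cast
    rw [Finset.mul_sum]
    apply Finset.sum_le_sum
    intro m _
    have hm0 := hf_nonneg m
    split_ifs with hm
    · unfold hf
      have h5 : (1 / 2 : ℝ) ^ K ≤ (1 / 2 : ℝ) ^ sev m :=
        pow_le_pow_of_le_one (by norm_num) (by norm_num) hm.le
      have h6 : (2 : ℝ) ^ K * (1 / 2) ^ K = 1 := by rw [← mul_pow]; norm_num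
      calc (1 : ℝ) = 2 ^ K * (1 / 2) ^ K := h6.symm
        _ ≤ _ := mul_le_mul_of_nonneg_left h5 (by positivity)
    · positivity
  refine h4.trans ?_
  have h5 : ∑ m ∈ FF X, hf m ≤ C * ((X : ℝ) / Real.log X) * (DD X * Real.exp (-(1 / 4) * V7 X)) :=
    h3.trans (mul_le_mul_of_nonneg_left (sum_hf_le X) (by positivity))
  have hD := one_le_DD X
  calc 2 ^ K * ∑ m ∈ FF X, hf m ≤
      2 ^ K * (C * ((X : ℝ) / Real.log X) * (DD X * Real.exp (-(1 / 4) * V7 X))) :=
        mul_le_mul_of_nonneg_left h5 (by positivity)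
    _ = ((2 ^ K * C) * Real.exp (-(1 / 4) * V7 X)) * (((X : ℝ) / Real.log X) * DD X) := by ring
    _ ≤ ε * (((X : ℝ) / Real.log X) * DD X) :=
        mul_le_mul_of_nonneg_right h1.le (by positivity)
    _ = _ := by ring

end Pool.Agent.TRK
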