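import Pool.Agent.TRK.II1
import Pool.Agent.TRK.II2
import Pool.Agent.TRK.AG

set_option autoImplicit false

/-! MP_e2b281_nt: rank in the thin family, module KII -/

namespace Pool.Agent.TRK

theorem k0II {m : ℕ} (hm : FamN m) (hC : Crit m) {d k : ℕ} (hdk : d * k = m) {M e N : ℤ}
    (hN : N ≠ 0) (hM0 : M ≠ 0) (cMe : IsCoprime M e) (hM : M % 2 = 0)
    (h : (M ^ 2 - 2 * k * e ^ 2) * (M ^ 2 + 2 * k * e ^ 2) = d * N ^ 2) : False := by
  have hmodd : Odd (d * k) := by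
    rw [hdk, Nat.odd_iff]
    have := hm.m8
    omega
  obtain ⟨hdo, hko⟩ := Nat.odd_mul.1 hmodd
  have hsq : Squarefree (d * k) := by rw [hdk]; exact hm.sq
  obtain ⟨hcdk, hsqd, hsqk⟩ := Nat.squarefree_mul_iff.1 hsq
  obtain ⟨M1, rfl⟩ : ∃ M1, M = 2 * M1 := ⟨M / 2, by omega⟩
  have hM1 : M1 ≠ 0 := by
    rintro rfl
    exact hM0 (by ring)
  have c2e : IsCoprime (2 : ℤ) e := cMe.of_mul_left_left
  have cM1e : IsCoprime M1 e := cMe.of_mul_left_right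
  have heo : e % 2 = 1 := by
    rcases Int.emod_two_eq_zero_or_one e with he | he
    · exfalso
      have h2 : IsUnit (2 : ℤ) := c2e.isUnit_of_dvd' dvd_rfl (Int.dvd_of_emod_eq_zero he)
      rw [Int.isUnit_iff] at h2
      omega
    · exact he
  have hNe : Even N := by
    have h1 : Even ((d : ℤ) * N ^ 2) :=
      ⟨2 * ((2 * M1 ^ 2 - k * e ^ 2) * (2 * M1 ^ 2 + k * e ^ 2)), by linear_combination -h⟩
    rcases Int.even_mul.1 h1 with h2 | h2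
    · exfalso
      have h3 : Even d := by exact_mod_cast h2
      exact (Nat.not_even_iff_odd.2 hdo) h3
    · exact (Int.even_pow.1 h2).1
  obtain ⟨N1, rfl⟩ := hNe
  have hN1 : N1 ≠ 0 := by
    rintro rfl
    exact hN (by ring)
  have h1 : (2 * M1 ^ 2 - k * e ^ 2) * (2 * M1 ^ 2 + k * e ^ 2) = d * N1 ^ 2 := by
    have h2 : 4 * ((2 * M1 ^ 2 - k * e ^ 2) * (2 * M1 ^ 2 + k * e ^ 2)) = 4 * (d * N1 ^ 2) := by
      linear_combination h
    exact mul_left_cancel₀ (by norm_num) h2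
  set g : ℕ := Int.gcd M1 (k : ℤ) with hg
  have hg0 : 0 < g := Int.gcd_pos_of_ne_zero_left _ hM1
  obtain ⟨M', hM'⟩ : (g : ℤ) ∣ M1 := Int.gcd_dvd_left ..
  obtain ⟨h', hh'⟩ : g ∣ k := Int.natCast_dvd_natCast.1 (Int.gcd_dvd_right ..)
  have cM'h : IsCoprime M' (h' : ℤ) := by
    have h2 : Int.gcd M1 (k : ℤ) = g := rfl
    rw [hM', hh'] at h2
    push_cast at h2
    rw [Int.gcd_mul_left, Int.natAbs_natCast] at h2
    rw [Int.isCoprime_iff_gcd_eq_one]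
    exact Nat.eq_of_mul_eq_mul_left hg0 (by rw [h2, mul_one])
  have hM'0 : M' ≠ 0 := by
    rintro rfl
    exact hM1 (by rw [hM', mul_zero])
  have cge : IsCoprime (g : ℤ) e := by
    rw [hM'] at cM1e
    exact cM1e.of_mul_left_left
  have cM'e : IsCoprime M' e := by
    rw [hM'] at cM1e
    exact cM1e.of_mul_left_right
  rw [hh'] at hsqk hko
  obtain ⟨cgh, -, -⟩ := Nat.squarefree_mul_iff.1 hsqk
  obtain ⟨hgo, hho⟩ := Nat.odd_mul.1 hko
  have cgh' : IsCoprime (g : ℤ) (h' : ℤ) := Nat.isCoprime_iff_coprime.2 cgh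
  have cgd : IsCoprime (g : ℤ) (d : ℤ) := by
    rw [Nat.isCoprime_iff_coprime]
    exact (Nat.Coprime.coprime_dvd_right ⟨h', hh'⟩ hcdk).symm
  have h2 : (g : ℤ) ^ 2 * ((2 * g * M' ^ 2 - h' * e ^ 2) * (2 * g * M' ^ 2 + h' * e ^ 2)) =
      d * N1 ^ 2 := by
    rw [← h1, hM', hh']
    push_cast
    ring
  have hgN : (g : ℤ) ∣ N1 := by
    have h3 : (g : ℤ) ^ 2 ∣ d * N1 ^ 2 := ⟨_, h2.symm⟩
    have h4 : (g : ℤ) ^ 2 ∣ N1 ^ 2 := (cgd.pow_left (m := 2)).dvd_of_dvd_mul_left h3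
    exact (Int.pow_dvd_pow_iff (by norm_num)).1 h4
  obtain ⟨N2, rfl⟩ := hgN
  have hN2 : N2 ≠ 0 := by
    rintro rfl
    exact hN1 (by ring)
  have hgz : (0 : ℤ) < g := by exact_mod_cast hg0
  have h3 : (2 * g * M' ^ 2 - h' * e ^ 2) * (2 * g * M' ^ 2 + h' * e ^ 2) = d * N2 ^ 2 := by
    have h4 : (g : ℤ) ^ 2 * ((2 * g * M' ^ 2 - h' * e ^ 2) * (2 * g * M' ^ 2 + h' * e ^ 2)) =
        (g : ℤ) ^ 2 * (d * N2 ^ 2) := by
      rw [h2]
      ring
    exact mul_left_cancel₀ (by positivity) h4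
  have hd0 : (0 : ℤ) < d := by exact_mod_cast hdo.pos
  have hY : (0 : ℤ) < 2 * g * M' ^ 2 + h' * e ^ 2 := by
    have h4 : (0 : ℤ) < M' ^ 2 := by positivity
    have h5 : (0 : ℤ) ≤ h' * e ^ 2 := by positivity
    have h6 : (0 : ℤ) < 2 * g * M' ^ 2 := by positivity
    linarith
  have hX : (0 : ℤ) < 2 * g * M' ^ 2 - h' * e ^ 2 := by
    have h4 : (0 : ℤ) < d * N2 ^ 2 := by positivity
    rw [← h3] at h4
    exact (mul_pos_iff_of_pos_right hY).1 h4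
  have hAB : IsCoprime ((g : ℤ) * M' ^ 2) (h' * e ^ 2) :=
    IsCoprime.mul_left (cgh'.mul_right cge.pow_right) (cM'h.mul_right cM'e.pow_right).pow_left
  have hB2 : IsCoprime (2 : ℤ) (h' * e ^ 2) := by
    refine IsCoprime.mul_right ?_ c2e.pow_right
    have : IsCoprime ((2 : ℕ) : ℤ) (h' : ℤ) :=
      Nat.isCoprime_iff_coprime.2 (Nat.coprime_two_left.2 hho)
    exact_mod_cast this
  have hXB : IsCoprime (2 * (g : ℤ) * M' ^ 2 - h' * e ^ 2) (h' * e ^ 2) := by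
    have h4 : IsCoprime (2 * ((g : ℤ) * M' ^ 2)) (h' * e ^ 2) := hB2.mul_left hAB
    have h5 := h4.add_mul_right_left (-1)
    have h6 : 2 * (g : ℤ) * M' ^ 2 - h' * e ^ 2 =
        2 * ((g : ℤ) * M' ^ 2) + (-1) * (h' * e ^ 2) := by ring
    rw [h6]
    exact h5
  have hX2 : IsCoprime (2 * (g : ℤ) * M' ^ 2 - h' * e ^ 2) 2 := by
    have h5 := (hB2.neg_right.add_mul_left_right ((g : ℤ) * M' ^ 2)).symm
    have h6 : 2 * (g : ℤ) * M' ^ 2 - h' * e ^ 2 =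
        -(h' * e ^ 2) + 2 * ((g : ℤ) * M' ^ 2) := by ring
    rw [h6]
    exact h5
  have hXY : IsCoprime (2 * (g : ℤ) * M' ^ 2 - h' * e ^ 2) (2 * g * M' ^ 2 + h' * e ^ 2) := by
    have h5 := (hX2.mul_right hXB).add_mul_left_right 1
    have h6 : 2 * (g : ℤ) * M' ^ 2 + h' * e ^ 2 =
        2 * (h' * e ^ 2) + (2 * (g : ℤ) * M' ^ 2 - h' * e ^ 2) * 1 := by ring
    rw [h6]
    exact h5
  obtain ⟨a, c, r, s, hac, hXa, hYc, -⟩ := fac_sq hsqd hX hY hXY h3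
  have e1 : (a : ℤ) * r ^ 2 + 1 * h' * e ^ 2 = 2 * g * M' ^ 2 := by linarith
  have e2 : 2 * (g : ℤ) * M' ^ 2 + 1 * h' * e ^ 2 = c * s ^ 2 := by linarith
  have h4 : a * g * (c * h') = m := by
    rw [← hdk, hh', ← hac]
    ring
  rcases critAg hm hC h4 (Or.inr ⟨rfl, rfl⟩) e1 e2 cM'e cge cM'h with h5 | h5
  · have ha1 : a = 1 := Nat.dvd_one.1 ⟨g, h5.symm⟩
    have hg1 : g = 1 := Nat.dvd_one.1 ⟨a, by rw [mul_comm, h5]⟩
    rw [ha1] at e1 h4
    rw [hg1] at e1 e2 h4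
    refine caseII1 hm hC (c := c) (h := h') (by rw [← h4]; ring) (r := r) (s := s) (M := M') (e := e)
      ?_ ?_ hM'0 heo cM'e cM'h
    · push_cast at e1
      linarith
    · push_cast at e2
      linarith
  · have hc1 : c = 1 := Nat.dvd_one.1 ⟨h', h5.symm⟩
    have hh1 : h' = 1 := Nat.dvd_one.1 ⟨c, by rw [mul_comm, h5]⟩
    rw [hh1] at e1 e2 h4
    rw [hc1] at e2 h4
    refine caseII2 hm hC (a := a) (g := g) (by rw [← h4]; ring) (r := r) (s := s) (M := M') (e := e)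
      ?_ ?_ hM'0 heo cM'e cge
    · push_cast at e1
      linarith
    · push_cast at e2
      linarith

end Pool.Agent.TRK
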