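import Pool.Agent.TRK.Defs

set_option autoImplicit false

/-! MP_e2b281_nt: squares modulo 16 of products of primes which are 1 or 7 modulo 8 -/

namespace Pool.Agent.TRK

private theorem mod_nat (n : ℕ) : n % 2 = 1 →
    (∀ q : ℕ, q.Prime → q ≠ 2 → q ∣ n → q % 8 = 1 ∨ q % 8 = 7) → n % 8 = 1 ∨ n % 8 = 7 := by
  induction n using Nat.recOnMul with
  | zero => intro h; omega
  | one => intro _ _; left; rfl
  | prime p hp =>
    intro h1 h2
    refine h2 p hp ?_ dvd_rfl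
    rintro rfl
    omega
  | mul a b ha hb =>
    intro h1 h2
    have ha2 : a % 2 = 1 := by
      rcases Nat.mod_two_eq_zero_or_one a with h | h
      · rw [Nat.mul_mod, h] at h1; simp at h1
      · exact h
    have hb2 : b % 2 = 1 := by
      rcases Nat.mod_two_eq_zero_or_one b with h | h
      · rw [Nat.mul_mod, h] at h1; simp at h1
      · exact h
    have hA := ha ha2 fun q hq h3 h4 => h2 q hq h3 (h4.mul_right b)
    have hB := hb hb2 fun q hq h3 h4 => h2 q hq h3 (h4.mul_left a)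
    rw [Nat.mul_mod]
    rcases hA with h | h <;> rcases hB with h' | h' <;> rw [h, h'] <;> simp

theorem sq_mod16' {s : ℤ} (hs : s % 8 = 1 ∨ s % 8 = 7) : s ^ 2 % 16 = 1 := by
  rcases hs with h | h
  · obtain ⟨t, rfl⟩ : ∃ t, s = 8 * t + 1 := ⟨s / 8, by omega⟩
    have : (8 * t + 1) ^ 2 = 16 * (4 * t ^ 2 + t) + 1 := by ring
    omega
  · obtain ⟨t, rfl⟩ : ∃ t, s = 8 * t + 7 := ⟨s / 8, by omega⟩
    have : (8 * t + 7) ^ 2 = 16 * (4 * t ^ 2 + 7 * t + 3) + 1 := by ring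
    omega

theorem sq_mod16 {s : ℤ} (hs : s % 2 = 1)
    (h : ∀ q : ℕ, q.Prime → q ≠ 2 → (q : ℤ) ∣ s → q % 8 = 1 ∨ q % 8 = 7) : s ^ 2 % 16 = 1 := by
  have h1 : s.natAbs % 8 = 1 ∨ s.natAbs % 8 = 7 := by
    refine mod_nat _ (by omega) fun q hq h2 h3 => ?_
    exact h q hq h2 (Int.natCast_dvd.2 h3)
  exact sq_mod16' (by omega)

theorem FamN.odd {m : ℕ} (hm : FamN m) : m % 2 = 1 := by
  have := hm.m8; omega

theorem FamN.dvd_mod {m : ℕ} (hm : FamN m) {d : ℕ} (hd : d ∣ m) : d % 8 = 1 ∨ d % 8 = 7 := by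
  refine mod_nat d ?_ fun q hq _ h => hm.pr q hq (h.trans hd)
  obtain ⟨c, rfl⟩ := hd
  have h1 := hm.odd
  rcases Nat.mod_two_eq_zero_or_one d with h | h
  · rw [Nat.mul_mod, h] at h1; simp at h1
  · exact h

end Pool.Agent.TRK
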