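import Pool.Agent.TRK.Defs

set_option autoImplicit false

/-! MP_e2b281_nt: quadratic residue helpers -/

namespace Pool.Agent.TRK

private theorem gcd_one {q : ℕ} (hq : q.Prime) {x : ℤ} (hx : ¬ (q : ℤ) ∣ x) :
    x.gcd q = 1 := by
  have h := (Nat.Prime.coprime_iff_not_dvd hq).2 fun h => hx (Int.natCast_dvd.2 h)
  exact h.symm

theorem jac_sq {q : ℕ} (hq : q.Prime) {x : ℤ} (hx : ¬ (q : ℤ) ∣ x) : jacobiSym (x ^ 2) q = 1 :=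
  jacobiSym.sq_one' (gcd_one hq hx)

theorem jac_pm {q : ℕ} (hq : q.Prime) {x : ℤ} (hx : ¬ (q : ℤ) ∣ x) :
    jacobiSym x q = 1 ∨ jacobiSym x q = -1 :=
  jacobiSym.eq_one_or_neg_one (gcd_one hq hx)

theorem jac_of_eq {q : ℕ} (hq : q.Prime) (hq2 : q ≠ 2) {A B X Y : ℤ} (hX : ¬ (q : ℤ) ∣ X)
    (hY : ¬ (q : ℤ) ∣ Y) (h : (q : ℤ) ∣ A * X ^ 2 - B * Y ^ 2) :
    jacobiSym A q = jacobiSym B q := by
  have h1 : jacobiSym (A * X ^ 2) q = jacobiSym (B * Y ^ 2) q :=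
    jacobiSym.mod_left' (Int.ModEq.symm (Int.modEq_iff_dvd.2 h))
  rw [jacobiSym.mul_left, jacobiSym.mul_left, jac_sq hq hX, jac_sq hq hY, mul_one, mul_one] at h1
  exact h1

theorem mod8_of_two {q : ℕ} (hq : q.Prime) (hq2 : q ≠ 2) {X Y : ℤ} (hY : ¬ (q : ℤ) ∣ Y)
    (h : (q : ℤ) ∣ X ^ 2 - 2 * Y ^ 2) : q % 8 = 1 ∨ q % 8 = 7 := by
  haveI : Fact q.Prime := ⟨hq⟩
  refine (ZMod.exists_sq_eq_two_iff hq2).1 ?_
  have h1 : ((X ^ 2 - 2 * Y ^ 2 : ℤ) : ZMod q) = 0 := (ZMod.intCast_zmod_eq_zero_iff_dvd _ _).2 h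
  have h2 : (Y : ZMod q) ≠ 0 := fun h0 => hY ((ZMod.intCast_zmod_eq_zero_iff_dvd _ _).1 h0)
  push_cast at h1
  refine ⟨(X : ZMod q) / Y, ?_⟩
  field_simp
  linear_combination -h1

theorem jac_two {q : ℕ} (h : q % 8 = 1 ∨ q % 8 = 7) : jacobiSym 2 q = 1 := by
  have ho : q % 2 = 1 := by omega
  rw [jacobiSym.at_two (Nat.odd_iff.2 ho), ZMod.χ₈_nat_eq_if_mod_eight]
  have h0 : q % 2 ≠ 0 := by omega
  simp [h0, h]

end Pool.Agent.TRK
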