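import Pool.Agent.TRK.VEC
import Pool.Agent.TRK.LAA

set_option autoImplicit false

/-! MP_e2b281_nt: rank in the thin family, module RDT -/

namespace Pool.Agent.TRK

namespace RDT

/-- quadratic reciprocity for the symbols in the field with two elements -/
lemma sy_recip {p q : ℕ} (hp : p.Prime) (hq : q.Prime) (hne : p ≠ q)
    (hp8 : p % 8 = 1 ∨ p % 8 = 7) (hq8 : q % 8 = 1 ∨ q % 8 = 7) :
    sy q p = sy p q + nn p * nn q := by
  have hpo : Odd p := Nat.odd_iff.2 (by omega)
  have hqo : Odd q := Nat.odd_iff.2 (by omega)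
  have hrec := jacobiSym.quadratic_reciprocity hpo hqo
  have hcop : Nat.Coprime q p := (Nat.coprime_primes hq hp).2 (Ne.symm hne)
  have h1 : jacobiSym q p = 1 ∨ jacobiSym q p = -1 := by
    refine jacobiSym.eq_one_or_neg_one ?_
    rw [Int.gcd_natCast_natCast]
    exact hcop
  have hodd : ∀ a : ℕ, a % 8 = 7 → Odd (a / 2) := fun a ha => Nat.odd_iff.2 (by omega)
  have heven : ∀ a : ℕ, a % 8 = 1 → Even (a / 2) := fun a ha => Nat.even_iff.2 (by omega)
  have two : (1 : ZMod 2) + 1 = 0 := by decide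
  rcases hp8 with hp8 | hp8 <;> rcases hq8 with hq8 | hq8
  · have e : Even (p / 2 * (q / 2)) := (heven p hp8).mul_right _
    rw [e.neg_one_pow, one_mul] at hrec
    rcases h1 with h1 | h1 <;> simp [sy, nn, hrec, h1, hp8, hq8]
  · have e : Even (p / 2 * (q / 2)) := (heven p hp8).mul_right _
    rw [e.neg_one_pow, one_mul] at hrec
    rcases h1 with h1 | h1 <;> simp [sy, nn, hrec, h1, hp8, hq8]
  · have e : Even (p / 2 * (q / 2)) := (heven q hq8).mul_left _
    rw [e.neg_one_pow, one_mul] at hrec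
    rcases h1 with h1 | h1 <;> simp [sy, nn, hrec, h1, hp8, hq8]
  · have e : Odd (p / 2 * (q / 2)) := (hodd p hp8).mul (hodd q hq8)
    rw [e.neg_one_pow] at hrec
    rcases h1 with h1 | h1 <;> simp [sy, nn, hrec, h1, hp8, hq8, two]

lemma nn_mul {a b : ℕ} (ha : a % 8 = 1 ∨ a % 8 = 7) (hb : b % 8 = 1 ∨ b % 8 = 7) :
    ((a * b) % 8 = 1 ∨ (a * b) % 8 = 7) ∧ nn (a * b) = nn a + nn b := by
  have two : (1 : ZMod 2) + 1 = 0 := by decide
  rcases ha with ha | ha <;> rcases hb with hb | hb <;>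
    simp [nn, Nat.mul_mod, ha, hb, two]

lemma nn_prod {ι : Type*} (s : Finset ι) (f : ι → ℕ) (hf : ∀ i ∈ s, f i % 8 = 1 ∨ f i % 8 = 7) :
    ((∏ i ∈ s, f i) % 8 = 1 ∨ (∏ i ∈ s, f i) % 8 = 7) ∧ nn (∏ i ∈ s, f i) = ∑ i ∈ s, nn (f i) := by
  classical
  induction s using Finset.induction_on with
  | empty => simp [nn]
  | insert a s ha ih =>
    have h1 := ih fun i hi => hf i (Finset.mem_insert_of_mem hi)
    have h2 := nn_mul (hf a (Finset.mem_insert_self a s)) h1.1
    rw [Finset.prod_insert ha, Finset.sum_insert ha, ← h1.2]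
    exact h2

lemma not_dvd_of_ne {k : ℕ} {p : Fin (k + 1) → ℕ} (F : FamP p) {i j : Fin (k + 1)} (h : i ≠ j) :
    ¬ p i ∣ p j := fun hd =>
  h (F.inj ((Nat.prime_dvd_prime_iff_eq (F.pr i) (F.pr j)).1 hd))

end RDT

open RDT

theorem redT_vec {k : ℕ} {p : Fin (k + 1) → ℕ} (F : FamP p) {N N' : ℕ} (h : N * N' = ∏ i, p i)
    (i : Fin (k + 1)) :
    Matrix.vecMul (vec p N) (redei p) i =
      if p i ∣ N then sy (p i) N' + nn (p i) * (nn N + 1) else sy (p i) N + nn (p i) * nn N := by
  classical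
  set S : Finset (Fin (k + 1)) := Finset.univ.filter (fun j => p j ∣ N) with hS
  set S' : Finset (Fin (k + 1)) := Finset.univ.filter (fun j => p j ∣ N') with hS'
  have hN : N ∣ ∏ i, p i := ⟨N', h.symm⟩
  have hN' : N' ∣ ∏ i, p i := ⟨N, by rw [← h, mul_comm]⟩
  have hNp : N = ∏ j ∈ S, p j := prod_of_dvd F hN
  have hNp' : N' = ∏ j ∈ S', p j := prod_of_dvd F hN'
  have hoff : ∀ j, j ≠ i → redei p j i = sy (p j) (p i) := by
    intro j hj
    simp [redei, sy, hj]
  have hdiag : redei p i i = ∑ l ∈ Finset.univ.erase i, sy (p i) (p l) := by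
    simp [redei, sy]
  have hsum : Matrix.vecMul (vec p N) (redei p) i = ∑ j ∈ S, redei p j i := by
    rw [hS, Finset.sum_filter]
    simp [Matrix.vecMul, dotProduct, vec]
  have hrec : ∀ j, j ≠ i → sy (p j) (p i) = sy (p i) (p j) + nn (p i) * nn (p j) := fun j hj =>
    sy_recip (F.pr i) (F.pr j) (fun e => hj (F.inj e).symm) (F.h8 i) (F.h8 j)
  have hnnN : nn N = ∑ j ∈ S, nn (p j) := by
    conv_lhs => rw [hNp]
    exact (nn_prod S p fun j _ => F.h8 j).2
  have two : ∀ x : ZMod 2, x + x = 0 := by decide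
  have sq : ∀ x : ZMod 2, x * x = x := by decide
  rw [hsum]
  by_cases hi : p i ∣ N
  · rw [if_pos hi]
    have hiS : i ∈ S := by simp [hS, hi]
    have hiS' : i ∉ S' := by
      simp only [hS', Finset.mem_filter, Finset.mem_univ, true_and]
      exact fun h' => (dvd_compl F h i).1 h' hi
    have hsyN' : sy (p i) N' = ∑ j ∈ S', sy (p i) (p j) := by
      conv_lhs => rw [hNp']
      refine sy_prod (F.pr i) S' p fun j hj => not_dvd_of_ne F ?_
      rintro rfl
      exact hiS' hj
    have hun : Finset.univ.erase i = (S.erase i) ∪ S' := by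
      ext j
      simp only [Finset.mem_erase, Finset.mem_univ, and_true, Finset.mem_union, hS, hS',
        Finset.mem_filter, true_and]
      have := dvd_compl F h j
      constructor
      · intro hj
        by_cases hd : p j ∣ N
        · exact Or.inl ⟨hj, hd⟩
        · exact Or.inr (this.2 hd)
      · rintro (⟨hj, -⟩ | hj)
        · exact hj
        · rintro rfl
          exact (this.1 hj) hi
    have hdis : Disjoint (S.erase i) S' := by
      rw [Finset.disjoint_left]
      intro j hj hj'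
      simp only [hS, hS', Finset.mem_erase, Finset.mem_filter, Finset.mem_univ, true_and] at hj hj'
      exact ((dvd_compl F h j).1 hj') hj.2
    have e1 : ∑ j ∈ S, redei p j i = redei p i i + ∑ j ∈ S.erase i, redei p j i :=
      (Finset.add_sum_erase S _ hiS).symm
    have e2 : ∑ j ∈ S.erase i, redei p j i =
        ∑ j ∈ S.erase i, sy (p i) (p j) + nn (p i) * ∑ j ∈ S.erase i, nn (p j) := by
      rw [Finset.mul_sum, ← Finset.sum_add_distrib]
      refine Finset.sum_congr rfl fun j hj => ?_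
      have hj' := Finset.ne_of_mem_erase hj
      rw [hoff j hj', hrec j hj']
    have e3 : nn N = nn (p i) + ∑ j ∈ S.erase i, nn (p j) := by
      rw [hnnN, Finset.add_sum_erase S (fun j => nn (p j)) hiS]
    rw [e1, e2, hdiag, hun, Finset.sum_union hdis, hsyN', e3]
    have a1 := two (∑ j ∈ S.erase i, sy (p i) (p j))
    have a2 := sq (nn (p i))
    have a3 := two (nn (p i))
    linear_combination a1 - a2 - a3
  · rw [if_neg hi]
    have hiS : i ∉ S := by simp [hS, hi]
    have hsyN : sy (p i) N = ∑ j ∈ S, sy (p i) (p j) := by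
      conv_lhs => rw [hNp]
      refine sy_prod (F.pr i) S p fun j hj => not_dvd_of_ne F ?_
      rintro rfl
      exact hiS hj
    rw [hsyN, hnnN, Finset.mul_sum, ← Finset.sum_add_distrib]
    refine Finset.sum_congr rfl fun j hj => ?_
    have hj' : j ≠ i := by rintro rfl; exact hiS hj
    rw [hoff j hj', hrec j hj']

end Pool.Agent.TRK
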