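import Pool.Agent.TRK.QRH
import Pool.Agent.H23.Count

set_option autoImplicit false

/-! MP_e2b281_nt: rank in the thin family, module SBN -/

namespace Pool.Agent.TRK

open Pool.Agent.H23

private theorem sbn_jac {q : ℕ} [Fact q.Prime] {a : ℤ} (h0 : ¬ (q : ℤ) ∣ a)
    (h : IsSquare (a : ZMod q)) : jacobiSym a q = 1 := by
  have ha : (a : ZMod q) ≠ 0 := by rwa [Ne, ZMod.intCast_zmod_eq_zero_iff_dvd]
  rw [← jacobiSym.legendreSym.to_jacobiSym, legendreSym.eq_one_iff q ha]
  exact h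

/-- the eighth root of unity -/
private theorem sbn_eighth {q : ℕ} [Fact q.Prime] (h8 : q % 8 = 1) : ∃ z : ZMod q, z ^ 4 = -1 := by
  have hq2 : q ≠ 2 := by rintro rfl; norm_num at h8
  obtain ⟨s, hs⟩ := (ZMod.exists_sq_eq_two_iff hq2).2 (Or.inl h8)
  obtain ⟨i, hi⟩ := (ZMod.exists_sq_eq_neg_one_iff (p := q)).2 (by omega)
  have h2 : (2 : ZMod q) ≠ 0 := by
    intro h
    have h' : ((2 : ℕ) : ZMod q) = 0 := by exact_mod_cast h
    rw [ZMod.natCast_eq_zero_iff] at h'
    exact hq2 ((Nat.prime_dvd_prime_iff_eq Fact.out Nat.prime_two).mp h')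
  have hs0 : s ≠ 0 := by
    rintro rfl
    exact h2 (by rw [hs]; ring)
  refine ⟨(1 + i) / s, ?_⟩
  rw [div_pow, div_eq_iff (pow_ne_zero 4 hs0)]
  have e1 : (1 + i) ^ 2 = 2 * i := by linear_combination -hi
  calc (1 + i) ^ 4 = ((1 + i) ^ 2) ^ 2 := by ring
    _ = (2 * i) ^ 2 := by rw [e1]
    _ = -(2 * 2) := by linear_combination -4 * hi
    _ = -((s * s) * (s * s)) := by rw [← hs]
    _ = -1 * s ^ 4 := by ring

/-- the case where `q` divides `D` -/
private theorem sbn_quart {q : ℕ} [Fact q.Prime] (hq2 : q ≠ 2) (h8 : q % 8 = 1 ∨ q % 8 = 7)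
    {c : ℤ} (hc : ¬ (q : ℤ) ∣ c) {x : ZMod q} (hx : x ^ 4 = -(4 * (c : ZMod q)) ^ 2) :
    jacobiSym c q = 1 ∧ q % 8 = 1 := by
  have h2 : (2 : ZMod q) ≠ 0 := by
    intro h
    have h' : ((2 : ℕ) : ZMod q) = 0 := by exact_mod_cast h
    rw [ZMod.natCast_eq_zero_iff] at h'
    exact hq2 ((Nat.prime_dvd_prime_iff_eq Fact.out Nat.prime_two).mp h')
  have hc0 : (c : ZMod q) ≠ 0 := by rwa [Ne, ZMod.intCast_zmod_eq_zero_iff_dvd]
  have h4 : (4 : ZMod q) ≠ 0 := by
    have : (4 : ZMod q) = 2 * 2 := by norm_num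
    rw [this]; exact mul_ne_zero h2 h2
  have hk : (4 * (c : ZMod q)) ≠ 0 := mul_ne_zero h4 hc0
  have hsq : IsSquare (-1 : ZMod q) := by
    refine ⟨x ^ 2 / (4 * (c : ZMod q)), ?_⟩
    field_simp
    linear_combination -hx
  have h3 : q % 4 ≠ 3 := ZMod.exists_sq_eq_neg_one_iff.1 hsq
  have h1 : q % 8 = 1 := by omega
  refine ⟨sbn_jac hc ?_, h1⟩
  obtain ⟨z, hz⟩ := sbn_eighth h1
  have hz0 : z ≠ 0 := by
    rintro rfl
    apply one_ne_zero (α := ZMod q)
    linear_combination hz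
  have e1 : (x ^ 2 - z ^ 2 * (4 * c)) * (x ^ 2 + z ^ 2 * (4 * c)) = 0 := by
    linear_combination hx - (4 * (c : ZMod q)) ^ 2 * hz
  rcases mul_eq_zero.1 e1 with h | h
  · refine ⟨x / (2 * z), ?_⟩
    field_simp
    linear_combination -h
  · refine ⟨z * x / 2, ?_⟩
    have h22 : (2 : ZMod q) * 2 = 4 := by norm_num
    rw [div_mul_div_comm, h22, eq_div_iff h4]
    linear_combination (-z ^ 2) * h + (4 * (c : ZMod q)) * hz

theorem condA_of_selB {m : ℕ} (hm : FamN m) {q : ℕ} [Fact q.Prime] (hq : q ∣ m)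
    {D : ℕ} (hD : D ∣ m) (h : QSol ℚ_[q] 0 (16 * (m : ℤ) ^ 2) D) :
    condA m D q ∧ (q ∣ D → q % 8 = 1) := by
  have hqp : q.Prime := Fact.out
  have h8 := hm.pr q hqp hq
  have hq2 : q ≠ 2 := by rintro rfl; omega
  have hpri : Prime (q : ℤ_[q]) := PadicInt.prime_p
  have hqz : Prime (q : ℤ) := Nat.prime_iff_prime_int.mp hqp
  have hm0 : 0 < m := by have := hm.one; omega
  obtain ⟨c, hc⟩ := hD
  have hD0 : 0 < D := Nat.pos_of_ne_zero (by rintro rfl; simp at hc; omega)
  have hc0 : 0 < c := Nat.pos_of_ne_zero (by rintro rfl; simp at hc; omega)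
  have hmD : m / D = c := by rw [hc]; exact Nat.mul_div_cancel_left c hD0
  have hbd : (16 * (m : ℤ) ^ 2) / (D : ℤ) = 16 * D * (c : ℤ) ^ 2 := by
    rw [hc]; push_cast
    have : (16 * ((D : ℤ) * c) ^ 2) = D * (16 * D * (c : ℤ) ^ 2) := by ring
    rw [this]
    exact Int.mul_ediv_cancel_left _ (by exact_mod_cast hD0.ne')
  have hcop : ¬ (q ∣ D ∧ q ∣ c) := by
    rintro ⟨h1, h2⟩
    have h3 : q * q ∣ m := by rw [hc]; exact mul_dvd_mul h1 h2
    have := hm.sq q h3
    exact hqp.one_lt.ne' (Nat.isUnit_iff.1 this)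
  have h16 : ((4 : ℤ) : ZMod q) ≠ 0 := by
    have h2 : (2 : ZMod q) ≠ 0 := by
      intro h
      have h' : ((2 : ℕ) : ZMod q) = 0 := by exact_mod_cast h
      rw [ZMod.natCast_eq_zero_iff] at h'
      exact hq2 ((Nat.prime_dvd_prime_iff_eq hqp Nat.prime_two).mp h')
    push_cast
    have : (4 : ZMod q) = 2 * 2 := by norm_num
    rw [this]; exact mul_ne_zero h2 h2
  -- reduction modulo q
  have key := qsol_norm h
  rw [hbd] at key
  have hquart : q ∣ D → ∃ x : ZMod q, x ^ 4 = -(4 * ((c : ℤ) : ZMod q)) ^ 2 := by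
    intro hqD
    obtain ⟨D1, rfl⟩ := hqD
    have hD1 : ¬ (q : ℤ_[q]) ∣ (((D1 : ℤ)) : ℤ_[q]) := by
      rw [p_dvd_int_iff]
      intro h2
      have h2' : q ∣ D1 := by exact_mod_cast h2
      have h3 : q * q ∣ m := by
        rw [hc]
        exact (mul_dvd_mul_left q h2').mul_right c
      have := hm.sq q h3
      exact hqp.one_lt.ne' (Nat.isUnit_iff.1 this)
    have step : ∀ N F : ℤ_[q], N ^ 2 = q * (D1 * F) → (q : ℤ_[q]) ∣ F := by
      intro N F hNF
      have hN : (q : ℤ_[q]) ∣ N := hpri.dvd_of_dvd_pow (n := 2) ⟨_, hNF⟩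
      obtain ⟨N1, rfl⟩ := hN
      have h2 : (D1 : ℤ_[q]) * F = q * N1 ^ 2 := by
        apply mul_left_cancel₀ hpri.ne_zero
        linear_combination -hNF
      have h3 : (q : ℤ_[q]) ∣ (D1 : ℤ_[q]) * F := ⟨_, h2⟩
      rcases hpri.dvd_or_dvd h3 with h4 | h4
      · exact absurd (by simpa using h4) hD1
      · exact h4
    rcases key with ⟨N, e, h1⟩ | ⟨N, M, h1⟩
    · have h2 : (q : ℤ_[q]) ∣ (1 + 16 * (c : ℤ_[q]) ^ 2 * e ^ 4) := by
        apply step N
        rw [h1]
        push_cast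
        ring
      rw [← toZMod_eq_zero_iff] at h2
      simp only [map_add, map_mul, map_pow, map_natCast, map_ofNat, map_one] at h2
      have he : PadicInt.toZMod e ≠ 0 := by
        intro h0
        rw [h0] at h2
        apply one_ne_zero (α := ZMod q)
        linear_combination h2
      refine ⟨1 / PadicInt.toZMod e, ?_⟩
      push_cast
      field_simp
      linear_combination h2
    · have h2 : (q : ℤ_[q]) ∣ (M ^ 4 + 16 * (c : ℤ_[q]) ^ 2) := by
        apply step N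
        rw [h1]
        push_cast
        ring
      rw [← toZMod_eq_zero_iff] at h2
      simp only [map_add, map_mul, map_pow, map_natCast, map_ofNat] at h2
      refine ⟨PadicInt.toZMod M, ?_⟩
      push_cast
      linear_combination h2
  have hqc' : q ∣ D → ¬ (q : ℤ) ∣ (c : ℤ) := by
    intro hqD h1
    exact hcop ⟨hqD, by exact_mod_cast h1⟩
  constructor
  · constructor
    · intro hqD
      have hqc : q ∣ c := by
        rw [hc] at hq
        exact (hqp.dvd_mul.1 hq).resolve_left hqD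
      have hDz : ¬ (q : ℤ) ∣ (D : ℤ) := by exact_mod_cast hqD
      have hc1 : (c : ZMod q) = 0 := (ZMod.natCast_eq_zero_iff c q).2 hqc
      refine sbn_jac hDz ?_
      rcases key with ⟨N, e, h1⟩ | ⟨N, M, h1⟩
      · have e1 := congrArg (PadicInt.toZMod : ℤ_[q] →+* ZMod q) h1
        simp only [map_add, map_mul, map_pow, toZMod_intCast] at e1
        push_cast at e1
        rw [hc1] at e1
        refine ⟨PadicInt.toZMod N, ?_⟩
        push_cast
        linear_combination -e1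
      · by_cases hM : (q : ℤ_[q]) ∣ M
        · obtain ⟨M1, rfl⟩ := hM
          obtain ⟨c1, rfl⟩ := hqc
          have hc1' : ¬ q ∣ c1 := by
            intro h2
            have h3 : q * q ∣ m := by
              rw [hc]
              exact (mul_dvd_mul_left q h2).mul_left D
            have := hm.sq q h3
            exact hqp.one_lt.ne' (Nat.isUnit_iff.1 this)
          have hN : (q : ℤ_[q]) ∣ N := by
            apply hpri.dvd_of_dvd_pow (n := 2)
            rw [h1]
            push_cast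
            refine ⟨D * q ^ 3 * M1 ^ 4 + 16 * D * q * c1 ^ 2, ?_⟩
            ring
          obtain ⟨N1, rfl⟩ := hN
          have hq0 : (q : ℤ_[q]) ^ 2 ≠ 0 := pow_ne_zero 2 hpri.ne_zero
          have h2 : N1 ^ 2 = D * (q ^ 2 * M1 ^ 4) + 16 * D * c1 ^ 2 := by
            apply mul_left_cancel₀ hq0
            push_cast at h1
            linear_combination h1
          have e1 := congrArg (PadicInt.toZMod : ℤ_[q] →+* ZMod q) h2
          simp only [map_add, map_mul, map_pow, map_natCast, map_ofNat, CharP.cast_eq_zero] at e1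
          have hc2 : (c1 : ZMod q) ≠ 0 := by
            rwa [Ne, ZMod.natCast_eq_zero_iff]
          have h4 : (4 : ZMod q) ≠ 0 := by exact_mod_cast h16
          refine ⟨PadicInt.toZMod N1 / (4 * c1), ?_⟩
          push_cast
          field_simp
          linear_combination -e1
        · have e1 := congrArg (PadicInt.toZMod : ℤ_[q] →+* ZMod q) h1
          simp only [map_add, map_mul, map_pow, toZMod_intCast] at e1
          push_cast at e1
          rw [hc1] at e1
          have hM0 : PadicInt.toZMod M ≠ 0 := by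
            rw [Ne, toZMod_eq_zero_iff]; exact hM
          refine ⟨PadicInt.toZMod N / PadicInt.toZMod M ^ 2, ?_⟩
          push_cast
          field_simp
          linear_combination -e1
    · intro hqD
      rw [hmD]
      obtain ⟨x, hx⟩ := hquart hqD
      exact (sbn_quart hq2 h8 (hqc' hqD) hx).1
  · intro hqD
    obtain ⟨x, hx⟩ := hquart hqD
    exact (sbn_quart hq2 h8 (hqc' hqD) hx).2

private theorem sbn_four : ∀ N : ZMod 4, N ^ 2 ≠ 2 := by decide

private theorem sbn_sixteen : ∀ N x D : ZMod 16, 8 * D = 8 → N ^ 2 ≠ 2 * D * x ^ 4 + 8 := by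
  decide

theorem selB_odd {m : ℕ} (hm : FamN m) {d : ℤ} (hd : Squarefree d) (hdm : d ∣ 16 * (m : ℤ) ^ 2)
    (h : QSol ℚ_[2] 0 (16 * (m : ℤ) ^ 2) d) : d % 2 = 1 := by
  by_contra hodd
  obtain ⟨d', rfl⟩ : (2 : ℤ) ∣ d := by omega
  have hd'o : ¬ (2 : ℤ) ∣ d' := by
    rintro ⟨k, rfl⟩
    have := hd 2 ⟨k, by ring⟩
    rw [Int.isUnit_iff] at this
    omega
  have hmo : ¬ (2 : ℤ) ∣ (m : ℤ) ^ 2 := by
    intro h2
    have h3 := Int.prime_two.dvd_of_dvd_pow h2
    have := hm.m8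
    omega
  obtain ⟨c, hc⟩ := hdm
  have h8 : 8 * (m : ℤ) ^ 2 = d' * c := by linarith
  have h8c : (8 : ℤ) ∣ c := by
    have h1 : (8 : ℤ) ∣ d' * c := ⟨_, h8.symm⟩
    have h2 : IsCoprime (2 : ℤ) d' := (Int.prime_two.coprime_iff_not_dvd).2 hd'o
    have h3 : IsCoprime (8 : ℤ) d' := by
      have : (8 : ℤ) = 2 ^ 3 := by norm_num
      rw [this]; exact h2.pow_left
    exact h3.dvd_of_dvd_mul_left h1
  obtain ⟨k, rfl⟩ := h8c
  have hmk : (m : ℤ) ^ 2 = d' * k := by linarith
  have hko : ¬ (2 : ℤ) ∣ k := by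
    intro h2
    exact hmo (hmk ▸ h2.mul_left d')
  have hd'0 : d' ≠ 0 := by rintro rfl; exact hd'o (dvd_zero _)
  have hbd : (16 * (m : ℤ) ^ 2) / (2 * d') = 8 * k := by
    rw [hc]
    exact Int.mul_ediv_cancel_left _ (mul_ne_zero two_ne_zero hd'0)
  have key := qsol_norm h
  rw [hbd] at key
  have cast_odd : ∀ (n : ℕ) (a : ℤ), ¬ (2 : ℤ) ∣ a → (8 : ZMod 16) * (a : ZMod 16) = 8 := by
    intro _ a ha
    have h1 : ((8 * a : ℤ) : ZMod 16) = ((8 : ℤ) : ZMod 16) := by
      rw [ZMod.intCast_eq_intCast_iff_dvd_sub]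
      push_cast
      omega
    push_cast at h1
    exact h1
  rcases key with ⟨N, e, h1⟩ | ⟨N, M, h1⟩
  · have e1 := congrArg (PadicInt.toZModPow 2 : ℤ_[2] →+* ZMod (2 ^ 2)) h1
    simp only [map_add, map_mul, map_pow, map_intCast] at e1
    have h4 : ((8 * k : ℤ) : ZMod (2 ^ 2)) = 0 := by
      rw [ZMod.intCast_zmod_eq_zero_iff_dvd]
      norm_num
      omega
    have h5 : ((2 * d' : ℤ) : ZMod (2 ^ 2)) = 2 := by
      have : ((2 * d' : ℤ) : ZMod (2 ^ 2)) = ((2 : ℤ) : ZMod (2 ^ 2)) := by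
        rw [ZMod.intCast_eq_intCast_iff_dvd_sub]
        norm_num
        omega
      rw [this]; norm_num
    rw [h4, h5] at e1
    refine sbn_four (PadicInt.toZModPow 2 N) ?_
    simpa using e1
  · have e1 := congrArg (PadicInt.toZModPow 4 : ℤ_[2] →+* ZMod (2 ^ 4)) h1
    simp only [map_add, map_mul, map_pow, map_intCast] at e1
    have h6 := cast_odd 0 k hko
    have h7 := cast_odd 0 d' hd'o
    refine sbn_sixteen (PadicInt.toZModPow 4 N) (PadicInt.toZModPow 4 M) (d' : ZMod 16) h7 ?_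
    push_cast at e1
    have e2 : (PadicInt.toZModPow 4 N : ZMod 16) ^ 2 =
        2 * (d' : ZMod 16) * (PadicInt.toZModPow 4 M : ZMod 16) ^ 4 + 0 *
          (PadicInt.toZModPow 4 M : ZMod 16) ^ 2 + 8 * (k : ZMod 16) := e1
    rw [e2, h6]
    ring

end Pool.Agent.TRK
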