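import Pool.Agent.TLW.RegA

set_option autoImplicit false

/-! MP_e2b281_nt: the sum of the reciprocals of the primes 7 modulo 8 diverges -/

namespace Pool.Agent.TRK

open Finset Filter Topology Pool.Agent.TLW

/-- primes of class 7 modulo 8 in `(x, y]` -/
def p7 (x y : ℕ) : Finset ℕ := (pr x y).filter (fun q => q % 8 = 7)

/-- sum of the reciprocals of the primes of class 7 up to `Y` -/
noncomputable def V7 (Y : ℕ) : ℝ := ∑ p ∈ p7 0 Y, 1 / (p : ℝ)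

theorem mem_p7 {x y p : ℕ} : p ∈ p7 x y ↔ ((x < p ∧ p ≤ y) ∧ P8 p) ∧ p % 8 = 7 := by
  unfold p7
  rw [Finset.mem_filter, mem_pr]

theorem V7_mono : Monotone V7 := by
  intro a b hab
  unfold V7
  apply Finset.sum_le_sum_of_subset_of_nonneg
  · intro q hq
    rw [mem_p7] at hq ⊢
    exact ⟨⟨⟨hq.1.1.1, hq.1.1.2.trans hab⟩, hq.1.2⟩, hq.2⟩
  · intros
    positivity

theorem p7_disj (x y : ℕ) : Disjoint (p7 0 x) (p7 x y) := by
  rw [Finset.disjoint_left]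
  intro q h1 h2
  rw [mem_p7] at h1 h2
  omega

theorem p7_union {x y : ℕ} (h : x ≤ y) : p7 0 y = p7 0 x ∪ p7 x y := by
  ext q
  rw [Finset.mem_union, mem_p7, mem_p7, mem_p7]
  constructor
  · rintro ⟨⟨⟨h1, h2⟩, h3⟩, h4⟩
    rcases le_or_gt q x with h5 | h5
    · exact Or.inl ⟨⟨⟨h1, h5⟩, h3⟩, h4⟩
    · exact Or.inr ⟨⟨⟨h5, h2⟩, h3⟩, h4⟩
  · rintro (⟨⟨⟨h1, h2⟩, h3⟩, h4⟩ | ⟨⟨⟨h1, h2⟩, h3⟩, h4⟩)
    · exact ⟨⟨⟨h1, h2.trans h⟩, h3⟩, h4⟩
    · exact ⟨⟨⟨by omega, h2⟩, h3⟩, h4⟩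

theorem V7_step {x y : ℕ} (h : x ≤ y) :
    V7 x + (((p7 0 y).card : ℝ) - ((p7 0 x).card : ℝ)) / y ≤ V7 y := by
  have hc : ((p7 0 y).card : ℝ) = ((p7 0 x).card : ℝ) + ((p7 x y).card : ℝ) := by
    rw [p7_union h, Finset.card_union_of_disjoint (p7_disj x y)]
    push_cast
    rfl
  have hs : V7 y = V7 x + ∑ p ∈ p7 x y, 1 / (p : ℝ) := by
    unfold V7
    rw [p7_union h, Finset.sum_union (p7_disj x y)]
  rw [hs, hc, add_sub_cancel_left]
  have h1 : ((p7 x y).card : ℝ) / y ≤ ∑ p ∈ p7 x y, 1 / (p : ℝ) := by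
    have h2 : ((p7 x y).card : ℝ) / y = ∑ _p ∈ p7 x y, 1 / (y : ℝ) := by
      rw [Finset.sum_const, nsmul_eq_mul]
      ring
    rw [h2]
    apply Finset.sum_le_sum
    intro p hp
    rw [mem_p7] at hp
    have hp0 : (0 : ℝ) < p := by exact_mod_cast hp.1.2.1.pos
    have hpy : (p : ℝ) ≤ y := by exact_mod_cast hp.1.1.2
    exact one_div_le_one_div_of_le hp0 hpy
  linarith

theorem V7_block : ∃ k0 : ℕ, ∀ k : ℕ, k0 ≤ k →
    V7 (2 ^ k) + (1 / 20) * (1 / ((k : ℝ) + 1)) ≤ V7 (2 ^ (k + 1)) := by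
  obtain ⟨N, hN⟩ := (Metric.tendsto_atTop.1 (pr_class 7 (Or.inr rfl))) (1 / 40) (by norm_num)
  refine ⟨max N 4, fun k hk => ?_⟩
  have hkN : N ≤ k := (le_max_left _ _).trans hk
  have hk4 : 4 ≤ k := (le_max_right _ _).trans hk
  have hL0 : 0 < Real.log 2 := Real.log_pos (by norm_num)
  have hL1 : Real.log 2 ≤ 1 := by
    have := Real.log_two_lt_d9
    linarith
  have hkr : (4 : ℝ) ≤ k := by exact_mod_cast hk4
  have key : ∀ j : ℕ, k ≤ j → (9 / 40) * ((2 : ℝ) ^ j / (j * Real.log 2)) ≤ ((p7 0 (2 ^ j)).card : ℝ) ∧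
      ((p7 0 (2 ^ j)).card : ℝ) ≤ (11 / 40) * ((2 : ℝ) ^ j / (j * Real.log 2)) := by
    intro j hj
    have hj1 : N ≤ 2 ^ j := (hkN.trans hj).trans Nat.lt_two_pow_self.le
    have h2 := hN (2 ^ j) hj1
    have hlog : Real.log ((2 ^ j : ℕ) : ℝ) = j * Real.log 2 := by
      push_cast
      rw [Real.log_pow]
    rw [Real.dist_eq, abs_lt, hlog] at h2
    have hjr : (4 : ℝ) ≤ j := by exact_mod_cast hk4.trans hj
    have hpos : 0 < ((2 ^ j : ℕ) : ℝ) / (j * Real.log 2) := by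
      have : (0 : ℝ) < ((2 ^ j : ℕ) : ℝ) := by positivity
      positivity
    have e : ((2 ^ j : ℕ) : ℝ) = (2 : ℝ) ^ j := by push_cast; rfl
    constructor
    · have h3 : (9 / 40 : ℝ) ≤ (((pr 0 (2 ^ j)).filter (fun q => q % 8 = 7)).card : ℝ) /
          (((2 ^ j : ℕ) : ℝ) / (j * Real.log 2)) := by linarith [h2.1]
      have h4 := (le_div_iff₀ hpos).1 h3
      rw [e] at h4
      exact h4
    · have h3 : (((pr 0 (2 ^ j)).filter (fun q => q % 8 = 7)).card : ℝ) /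
          (((2 ^ j : ℕ) : ℝ) / (j * Real.log 2)) ≤ (11 / 40 : ℝ) := by linarith [h2.2]
      have h4 := (div_le_iff₀ hpos).1 h3
      rw [e] at h4
      exact h4
  have h1 := (key k le_rfl).2
  have h2 := (key (k + 1) (Nat.le_succ k)).1
  have hst := V7_step (x := 2 ^ k) (y := 2 ^ (k + 1)) (Nat.pow_le_pow_right (by norm_num) (Nat.le_succ k))
  refine le_trans ?_ hst
  have hx : (0 : ℝ) < 2 ^ k := by positivity
  have hyx : (((2 ^ (k + 1) : ℕ)) : ℝ) = 2 * 2 ^ k := by push_cast; ring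
  rw [hyx]
  have h3 : (1 / 10) * ((2 : ℝ) ^ k / ((k : ℝ) + 1)) ≤
      ((p7 0 (2 ^ (k + 1))).card : ℝ) - ((p7 0 (2 ^ k)).card : ℝ) := by
    have h4 : (9 / 40) * ((2 : ℝ) ^ (k + 1) / (((k + 1 : ℕ) : ℝ) * Real.log 2)) -
        (11 / 40) * ((2 : ℝ) ^ k / (k * Real.log 2)) =
        (2 : ℝ) ^ k / Real.log 2 * ((18 / 40) * (1 / ((k : ℝ) + 1)) - (11 / 40) * (1 / (k : ℝ))) := by
      push_cast
      field_simp
      ring
    have h5 : 1 / (k : ℝ) ≤ (5 / 4) * (1 / ((k : ℝ) + 1)) := by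
      rw [mul_one_div, div_le_div_iff₀ (by linarith) (by linarith)]
      linarith
    have h6 : (2 : ℝ) ^ k ≤ (2 : ℝ) ^ k / Real.log 2 := by
      rw [le_div_iff₀ hL0]
      nlinarith
    have h7 : (0 : ℝ) ≤ 1 / ((k : ℝ) + 1) := by positivity
    have h8 : (1 / 10) * (1 / ((k : ℝ) + 1)) ≤
        (18 / 40) * (1 / ((k : ℝ) + 1)) - (11 / 40) * (1 / (k : ℝ)) := by linarith
    calc (1 / 10) * ((2 : ℝ) ^ k / ((k : ℝ) + 1)) = (2 : ℝ) ^ k * ((1 / 10) * (1 / ((k : ℝ) + 1))) := by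
          ring
      _ ≤ (2 : ℝ) ^ k / Real.log 2 * ((1 / 10) * (1 / ((k : ℝ) + 1))) :=
          mul_le_mul_of_nonneg_right h6 (by positivity)
      _ ≤ (2 : ℝ) ^ k / Real.log 2 * ((18 / 40) * (1 / ((k : ℝ) + 1)) - (11 / 40) * (1 / (k : ℝ))) :=
          mul_le_mul_of_nonneg_left h8 (by positivity)
      _ = _ := h4.symm
      _ ≤ _ := by linarith
  have h9 : (1 / 20) * (1 / ((k : ℝ) + 1)) ≤
      (((p7 0 (2 ^ (k + 1))).card : ℝ) - ((p7 0 (2 ^ k)).card : ℝ)) / (2 * 2 ^ k) := by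
    rw [le_div_iff₀ (by positivity)]
    calc (1 / 20) * (1 / ((k : ℝ) + 1)) * (2 * 2 ^ k) = (1 / 10) * ((2 : ℝ) ^ k / ((k : ℝ) + 1)) := by
          ring
      _ ≤ _ := h3
  linarith

/-- The sum of the reciprocals of the primes 7 modulo 8 diverges. -/
theorem V7_tendsto : Tendsto V7 atTop atTop := by
  obtain ⟨k0, hk0⟩ := V7_block
  have hH := Real.tendsto_sum_range_one_div_nat_succ_atTop
  have key : ∀ n : ℕ, k0 ≤ n → V7 (2 ^ k0) + (1 / 20) * (∑ i ∈ range n, (1 / ((i : ℝ) + 1)) -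
      ∑ i ∈ range k0, (1 / ((i : ℝ) + 1))) ≤ V7 (2 ^ n) := by
    intro n hn
    induction n, hn using Nat.le_induction with
    | base => simp
    | succ n hn ih =>
      rw [Finset.sum_range_succ]
      have := hk0 n hn
      linarith
  refine tendsto_atTop_atTop_of_monotone V7_mono fun b => ?_
  obtain ⟨n, hn1, hn2⟩ := ((hH.eventually_ge_atTop (20 * (b - V7 (2 ^ k0)) +
    ∑ i ∈ range k0, (1 / ((i : ℝ) + 1)))).and (eventually_ge_atTop k0)).exists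
  refine ⟨2 ^ n, ?_⟩
  have := key n hn2
  linarith

end Pool.Agent.TRK
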